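import Mathlib

set_option autoImplicit false

/-! # Exponential sums over families `T(x) y + u(x) + v(y)` -/

namespace Pool.Agent.N39.RG

open Finset

variable {p : ℕ} [Fact p.Prime]

lemma psi_add (a b : ZMod p) : (ZMod.stdAddChar (a + b) : ℂ) = ZMod.stdAddChar a * ZMod.stdAddChar b :=
  AddChar.map_add_eq_mul _ _ _

lemma psi_norm (a : ZMod p) : ‖(ZMod.stdAddChar a : ℂ)‖ = 1 := AddChar.norm_apply _ _

lemma psi_conj (a : ZMod p) : (starRingEnd ℂ) (ZMod.stdAddChar a : ℂ) = ZMod.stdAddChar (-a) := by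
  rw [AddChar.map_neg_eq_conj]

/-- orthogonality for vectors -/
lemma sum_vec (n : ℕ) (β : Fin n → ZMod p) :
    ∑ y : Fin n → ZMod p, (ZMod.stdAddChar (β ⬝ᵥ y) : ℂ) = if β = 0 then (p : ℂ) ^ n else 0 := by
  split_ifs with h
  · subst h
    simp [ZMod.card]
  · obtain ⟨j, hj⟩ : ∃ j, β j ≠ 0 := by
      by_contra hc
      push Not at hc
      exact h (funext hc)
    obtain ⟨t, ht⟩ : ∃ t : ZMod p, (ZMod.stdAddChar (β j * t) : ℂ) ≠ 1 := by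
      have h1 := ZMod.isPrimitive_stdAddChar p hj
      rw [AddChar.ne_one_iff] at h1
      obtain ⟨t, ht⟩ := h1
      exact ⟨t, ht⟩
    have h2 : ∑ y : Fin n → ZMod p, (ZMod.stdAddChar (β ⬝ᵥ y) : ℂ) =
        ZMod.stdAddChar (β j * t) * ∑ y : Fin n → ZMod p, (ZMod.stdAddChar (β ⬝ᵥ y) : ℂ) := by
      conv_lhs => rw [← Equiv.sum_comp (Equiv.addRight (Pi.single j t))]
      rw [mul_sum]
      refine sum_congr rfl fun y _ => ?_
      rw [Equiv.coe_addRight, dotProduct_add, psi_add, dotProduct_single, mul_comm]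
    have h3 : (1 - (ZMod.stdAddChar (β j * t) : ℂ)) *
        ∑ y : Fin n → ZMod p, (ZMod.stdAddChar (β ⬝ᵥ y) : ℂ) = 0 := by
      rw [sub_mul, one_mul, ← h2, sub_self]
    rcases mul_eq_zero.mp h3 with h4 | h4
    · exact absurd (sub_eq_zero.mp h4).symm ht
    · exact h4

/-- the mean square of an exponential sum over a family of linear forms -/
lemma mean_square {ι : Type} (X : Finset ι) (n : ℕ) (a : ι → ZMod p) (b : ι → Fin n → ZMod p) :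
    ∑ y : Fin n → ZMod p, ‖∑ x ∈ X, (ZMod.stdAddChar (a x + b x ⬝ᵥ y) : ℂ)‖ ^ 2 ≤
      (p : ℝ) ^ n * (((X ×ˢ X).filter (fun q => b q.1 = b q.2)).card : ℝ) := by
  classical
  have h1 : ((∑ y : Fin n → ZMod p, ‖∑ x ∈ X, (ZMod.stdAddChar (a x + b x ⬝ᵥ y) : ℂ)‖ ^ 2 : ℝ) : ℂ) =
      ∑ q ∈ X ×ˢ X, (ZMod.stdAddChar (a q.1 - a q.2) : ℂ) *
        ∑ y : Fin n → ZMod p, (ZMod.stdAddChar ((b q.1 - b q.2) ⬝ᵥ y) : ℂ) := by
    push_cast
    have h2 : ∀ y : Fin n → ZMod p,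
        ((‖∑ x ∈ X, (ZMod.stdAddChar (a x + b x ⬝ᵥ y) : ℂ)‖ : ℂ)) ^ 2 =
        ∑ q ∈ X ×ˢ X, (ZMod.stdAddChar (a q.1 - a q.2) : ℂ) *
          (ZMod.stdAddChar ((b q.1 - b q.2) ⬝ᵥ y) : ℂ) := by
      intro y
      rw [← Complex.mul_conj', map_sum, sum_mul_sum, sum_product]
      refine sum_congr rfl fun x _ => sum_congr rfl fun x' _ => ?_
      rw [psi_conj, ← psi_add, ← psi_add, sub_dotProduct]
      congr 1
      ring
    rw [sum_congr rfl fun y _ => h2 y, sum_comm]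
    refine sum_congr rfl fun q _ => ?_
    rw [mul_sum]
  have h3 : ∀ q ∈ X ×ˢ X, ‖(ZMod.stdAddChar (a q.1 - a q.2) : ℂ) *
        ∑ y : Fin n → ZMod p, (ZMod.stdAddChar ((b q.1 - b q.2) ⬝ᵥ y) : ℂ)‖ =
        if b q.1 = b q.2 then (p : ℝ) ^ n else 0 := by
    intro q _
    rw [norm_mul, psi_norm, one_mul, sum_vec]
    by_cases h : b q.1 = b q.2
    · rw [if_pos (sub_eq_zero.mpr h), if_pos h, norm_pow, Complex.norm_natCast]
    · rw [if_neg (fun h' => h (sub_eq_zero.mp h')), if_neg h, norm_zero]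
  have h4 : ‖((∑ y : Fin n → ZMod p, ‖∑ x ∈ X, (ZMod.stdAddChar (a x + b x ⬝ᵥ y) : ℂ)‖ ^ 2 : ℝ) : ℂ)‖ =
      ∑ y : Fin n → ZMod p, ‖∑ x ∈ X, (ZMod.stdAddChar (a x + b x ⬝ᵥ y) : ℂ)‖ ^ 2 := by
    rw [Complex.norm_real, Real.norm_of_nonneg (sum_nonneg fun _ _ => by positivity)]
  rw [← h4, h1]
  refine (norm_sum_le _ _).trans ?_
  rw [sum_congr rfl h3, ← sum_filter, sum_const, nsmul_eq_mul, mul_comm]

/-- the exponential sums of the family `T(x) y + u(x) + v(y)` -/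
theorem bias_sq {ι : Type} (X : Finset ι) (n r : ℕ) (T : ι → Matrix (Fin r) (Fin n) (ZMod p))
    (u : ι → Fin r → ZMod p) (Y : Finset (Fin n → ZMod p)) (v : (Fin n → ZMod p) → Fin r → ZMod p)
    (α : Fin r → ZMod p) :
    ‖∑ z ∈ X ×ˢ Y, (ZMod.stdAddChar
        (∑ j, α j * ((T z.1).mulVec z.2 j + u z.1 j + v z.2 j)) : ℂ)‖ ^ 2 ≤
      Y.card * ((p : ℝ) ^ n *
        (((X ×ˢ X).filter (fun q => Matrix.vecMul α (T q.1) = Matrix.vecMul α (T q.2))).card : ℝ)) := by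
  classical
  set g : (Fin n → ZMod p) → ℂ := fun y =>
    ∑ x ∈ X, (ZMod.stdAddChar (α ⬝ᵥ u x + Matrix.vecMul α (T x) ⬝ᵥ y) : ℂ) with hg
  have h1 : ∑ z ∈ X ×ˢ Y, (ZMod.stdAddChar
        (∑ j, α j * ((T z.1).mulVec z.2 j + u z.1 j + v z.2 j)) : ℂ) =
      ∑ y ∈ Y, (ZMod.stdAddChar (α ⬝ᵥ v y) : ℂ) * g y := by
    rw [sum_product_right]
    refine sum_congr rfl fun y _ => ?_
    rw [hg, mul_sum]
    refine sum_congr rfl fun x _ => ?_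
    rw [← psi_add]
    congr 1
    rw [← Matrix.dotProduct_mulVec]
    simp only [dotProduct]
    rw [← sum_add_distrib, ← sum_add_distrib]
    refine sum_congr rfl fun j _ => ?_
    ring
  rw [h1]
  have h2 : ‖∑ y ∈ Y, (ZMod.stdAddChar (α ⬝ᵥ v y) : ℂ) * g y‖ ≤ ∑ y ∈ Y, ‖g y‖ := by
    refine (norm_sum_le _ _).trans (le_of_eq (sum_congr rfl fun y _ => ?_))
    rw [norm_mul, psi_norm, one_mul]
  have h3 : (∑ y ∈ Y, ‖g y‖) ^ 2 ≤ Y.card * ∑ y ∈ Y, ‖g y‖ ^ 2 := sq_sum_le_card_mul_sum_sq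
  have h4 : ∑ y ∈ Y, ‖g y‖ ^ 2 ≤ ∑ y : Fin n → ZMod p, ‖g y‖ ^ 2 :=
    sum_le_sum_of_subset_of_nonneg (subset_univ _) fun _ _ _ => by positivity
  have h5 := mean_square X n (fun x => α ⬝ᵥ u x) (fun x => Matrix.vecMul α (T x))
  calc _ ≤ (∑ y ∈ Y, ‖g y‖) ^ 2 := pow_le_pow_left₀ (norm_nonneg _) h2 2
    _ ≤ Y.card * ∑ y ∈ Y, ‖g y‖ ^ 2 := h3
    _ ≤ Y.card * ∑ y : Fin n → ZMod p, ‖g y‖ ^ 2 := by gcongr
    _ ≤ _ := by gcongr

end Pool.Agent.N39.RG
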