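import Pool.Agent.N647.FG.AP
import Pool.Agent.W147.PS.Scale

set_option autoImplicit false

/-! # Equidistribution of the points of a family of vectors modulo a prime

The lemmas of `Pool.Agent.N647.FG.Thm` (by helper647), copied without its covering criterion, whose imports
are incompatible with those of `Pool.Agent.N725.JC`. -/

namespace Pool.Agent.N39.RG

open Finset Filter
open Pool.Agent.N647.FG (AP W F count W_AP W_nonneg AP_card)

lemma prod_pert {κ : Type} (s : Finset κ) (N B : κ → ℝ) (η : ℝ) (h0 : 0 ≤ η) (h1 : η ≤ 1)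
    (hB : ∀ j ∈ s, 0 ≤ B j) (hN : ∀ j ∈ s, |N j - B j| ≤ η * B j) :
    |∏ j ∈ s, N j - ∏ j ∈ s, B j| ≤ (2 ^ s.card - 1) * η * ∏ j ∈ s, B j := by
  classical
  induction s using Finset.induction_on with
  | empty => simp
  | insert a s ha ih =>
    have ih' := ih (fun j hj => hB j (mem_insert_of_mem hj)) (fun j hj => hN j (mem_insert_of_mem hj))
    rw [prod_insert ha, prod_insert ha, card_insert_of_notMem ha]
    have hBa := hB a (mem_insert_self _ _)
    have hNa := hN a (mem_insert_self _ _)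
    have hB0 : 0 ≤ ∏ j ∈ s, B j := prod_nonneg fun j hj => hB j (mem_insert_of_mem hj)
    set b := ∏ j ∈ s, B j
    set n := ∏ j ∈ s, N j
    have h2 : (1 : ℝ) ≤ 2 ^ s.card := one_le_pow₀ (by norm_num)
    have h3 : |n| ≤ 2 ^ s.card * b := by
      have h4 : |n| ≤ |n - b| + |b| := by
        have := abs_add_le (n - b) b
        rwa [sub_add_cancel] at this
      rw [abs_of_nonneg hB0] at h4
      have h5 : (2 ^ s.card - 1) * η * b ≤ (2 ^ s.card - 1) * 1 * b := by
        apply mul_le_mul_of_nonneg_right _ hB0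
        apply mul_le_mul_of_nonneg_left h1 (by linarith)
      linarith
    have e : N a * n - B a * b = (N a - B a) * n + B a * (n - b) := by ring
    rw [e]
    refine (abs_add_le _ _).trans ?_
    rw [abs_mul, abs_mul, abs_of_nonneg hBa]
    calc |N a - B a| * |n| + B a * |n - b|
        ≤ (η * B a) * (2 ^ s.card * b) + B a * ((2 ^ s.card - 1) * η * b) := by
          gcongr
      _ = _ := by ring

section

variable {p : ℕ} [Fact p.Prime]

/-- the pairs of a member of the family and a vector of integers of the box which reduces to it -/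
noncomputable def fam {ι : Type} (S : Finset ι) {r : ℕ} (R : ι → Fin r → ZMod p) (M : Fin r → ℤ)
    (L : Fin r → ℕ) : Finset (Σ _ : ι, (Fin r → ℤ)) :=
  S.sigma fun i => Fintype.piFinset fun j =>
    (Ioc (M j) (M j + L j)).filter (fun x : ℤ => (x : ZMod p) = R i j)

lemma fam_card {ι : Type} (S : Finset ι) {r : ℕ} (R : ι → Fin r → ZMod p) (M : Fin r → ℤ)
    (L : Fin r → ℕ) (q : ℕ) (ρ : Fin r → ℤ) :
    (((fam S R M L).filter (fun z => ∀ j, (q : ℤ) ∣ z.2 j - ρ j)).card : ℝ) =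
      ∑ i ∈ S, ∏ j, (((AP (M j) (L j) q (ρ j)).filter
        (fun x : ℤ => (x : ZMod p) = R i j)).card : ℝ) := by
  have h1 : (fam S R M L).filter (fun z => ∀ j, (q : ℤ) ∣ z.2 j - ρ j) =
      S.sigma fun i => Fintype.piFinset fun j =>
        (AP (M j) (L j) q (ρ j)).filter (fun x : ℤ => (x : ZMod p) = R i j) := by
    ext ⟨i, x⟩
    simp only [fam, AP, mem_filter, mem_sigma, Fintype.mem_piFinset, mem_Ioc]
    constructor
    · rintro ⟨⟨h1, h2⟩, h3⟩
      exact ⟨h1, fun j => ⟨⟨(h2 j).1, h3 j⟩, (h2 j).2⟩⟩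
    · rintro ⟨h1, h2⟩
      exact ⟨⟨h1, fun j => ⟨(h2 j).1.1, (h2 j).2⟩⟩, fun j => (h2 j).1.2⟩
  rw [h1, card_sigma]
  push_cast
  refine sum_congr rfl fun i _ => ?_
  rw [Fintype.card_piFinset]
  push_cast
  rfl

/-- the family is equidistributed in the residue classes of the moduli `q ≤ Q` -/
lemma fam_equi {ι : Type} (S : Finset ι) (hS : S.Nonempty) {r : ℕ} (R : ι → Fin r → ZMod p)
    (E : ℝ) (hE0 : 0 ≤ E) (hE : ∀ α : Fin r → ZMod p, α ≠ 0 →
      ‖∑ i ∈ S, (ZMod.stdAddChar (∑ j, α j * R i j) : ℂ)‖ ≤ E)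
    (M : Fin r → ℤ) (L : Fin r → ℕ) (B γ Q : ℝ) (hB : 1 ≤ B) (hLB : ∀ j, B ≤ L j)
    (hLp : ∀ j, L j ≤ p) (hQ1 : 1 ≤ Q) (hQp : Q < p) (hQB : Q ≤ B)
    (h1 : E * (Real.log p + 3) ^ r ≤ γ / 2 * (S.card * ∏ j, ((L j : ℝ) / p)))
    (h2 : 2 ^ r * (Q / B) ≤ γ / 2) (h3 : γ ≤ 1 / 2) :
    (S.card * ∏ j, ((L j : ℝ) / p)) / 2 ≤ ((fam S R M L).card : ℝ) ∧
    ∀ q : ℕ, 1 ≤ q → (q : ℝ) ≤ Q → ∀ ρ : Fin r → ℤ,
      |(((fam S R M L).filter (fun z => ∀ j, (q : ℤ) ∣ z.2 j - ρ j)).card : ℝ) -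
        (fam S R M L).card / (q : ℝ) ^ r| ≤ (fam S R M L).card * (4 * γ) := by
  have hp0 : (0 : ℝ) < p := by exact_mod_cast (Fact.out : p.Prime).pos
  have hp1 : (1 : ℝ) ≤ p := by exact_mod_cast (Fact.out : p.Prime).one_le
  have hlog : 0 ≤ Real.log p := Real.log_nonneg hp1
  have hL0 : ∀ j, (0 : ℝ) < L j := fun j => by linarith [hLB j]
  have hScard : (0 : ℝ) < S.card := by exact_mod_cast hS.card_pos
  set A : ℝ := S.card * ∏ j, ((L j : ℝ) / p) with hA
  have hA0 : 0 < A := by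
    rw [hA]
    exact mul_pos hScard (prod_pos fun j _ => div_pos (hL0 j) hp0)
  have key : ∀ q : ℕ, 1 ≤ q → (q : ℝ) ≤ Q → ∀ ρ : Fin r → ℤ,
      |(((fam S R M L).filter (fun z => ∀ j, (q : ℤ) ∣ z.2 j - ρ j)).card : ℝ) -
        A / (q : ℝ) ^ r| ≤ γ * A := by
    intro q hq hqQ ρ
    have hqR : (1 : ℝ) ≤ q := by exact_mod_cast hq
    have hq0 : (0 : ℝ) < q := by linarith
    have hqp : q < p := by exact_mod_cast hqQ.trans_lt hQp
    rw [fam_card]
    have c1 := count S R (fun j => AP (M j) (L j) q (ρ j)) E hE0 hE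
    have c2 : ∏ j, W p (AP (M j) (L j) q (ρ j)) ≤ (Real.log p + 3) ^ r := by
      calc ∏ j, W p (AP (M j) (L j) q (ρ j)) ≤ ∏ _j : Fin r, (Real.log p + 3) :=
            prod_le_prod (fun j _ => W_nonneg _) fun j _ => W_AP (M j) (L j) q hq hqp (hLp j) (ρ j)
        _ = _ := by rw [prod_const, card_univ, Fintype.card_fin]
    have c3 := prod_pert univ (fun j => ((AP (M j) (L j) q (ρ j)).card : ℝ) / p)
      (fun j => (L j : ℝ) / q / p) (Q / B) (by positivity)
      (by rw [div_le_one (by linarith)]; exact hQB) (fun j _ => by positivity)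
      (fun j _ => by
        rw [← sub_div, abs_div, abs_of_pos hp0, mul_div_assoc']
        apply div_le_div_of_nonneg_right _ hp0.le
        refine (AP_card (M j) (L j) q hq (ρ j)).trans ?_
        rw [div_mul_div_comm, one_le_div (by positivity)]
        have := hLB j
        calc B * q ≤ L j * Q := by
              apply mul_le_mul this hqQ hq0.le (hL0 j).le
          _ = _ := mul_comm _ _)
    rw [card_univ, Fintype.card_fin] at c3
    have e1 : ∏ j, ((L j : ℝ) / q / p) = (∏ j, ((L j : ℝ) / p)) / q ^ r := by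
      have : ∀ j, (L j : ℝ) / q / p = ((L j : ℝ) / p) / q := fun j => by
        rw [div_right_comm]
      rw [prod_congr rfl fun j _ => this j, prod_div_distrib, prod_const, card_univ,
        Fintype.card_fin]
    rw [e1] at c3
    have hPi : 0 ≤ ∏ j, ((L j : ℝ) / p) := prod_nonneg fun j _ => by positivity
    have c4 : |(S.card : ℝ) * ∏ j, (((AP (M j) (L j) q (ρ j)).card : ℝ) / p) - A / q ^ r| ≤
        2 ^ r * (Q / B) * A := by
      have e2 : (S.card : ℝ) * ∏ j, (((AP (M j) (L j) q (ρ j)).card : ℝ) / p) - A / q ^ r =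
          S.card * (∏ j, (((AP (M j) (L j) q (ρ j)).card : ℝ) / p) -
            (∏ j, ((L j : ℝ) / p)) / q ^ r) := by
        rw [hA]; ring
      rw [e2, abs_mul, abs_of_pos hScard]
      calc (S.card : ℝ) * |∏ j, (((AP (M j) (L j) q (ρ j)).card : ℝ) / p) -
            (∏ j, ((L j : ℝ) / p)) / q ^ r|
          ≤ S.card * ((2 ^ r - 1) * (Q / B) * ((∏ j, ((L j : ℝ) / p)) / q ^ r)) :=
            mul_le_mul_of_nonneg_left c3 hScard.le
        _ ≤ S.card * (2 ^ r * (Q / B) * (∏ j, ((L j : ℝ) / p))) := by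
            apply mul_le_mul_of_nonneg_left _ hScard.le
            apply mul_le_mul _ (div_le_self hPi (one_le_pow₀ hqR)) (by positivity) (by positivity)
            apply mul_le_mul_of_nonneg_right _ (by positivity)
            linarith
        _ = _ := by rw [hA]; ring
    have c5 : |∑ i ∈ S, ∏ j, (((AP (M j) (L j) q (ρ j)).filter
        (fun x : ℤ => (x : ZMod p) = R i j)).card : ℝ) -
        (S.card : ℝ) * ∏ j, (((AP (M j) (L j) q (ρ j)).card : ℝ) / p)| ≤ γ / 2 * A :=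
      c1.trans ((mul_le_mul_of_nonneg_left c2 hE0).trans h1)
    have c6 := abs_add_le (∑ i ∈ S, ∏ j, (((AP (M j) (L j) q (ρ j)).filter
        (fun x : ℤ => (x : ZMod p) = R i j)).card : ℝ) -
        (S.card : ℝ) * ∏ j, (((AP (M j) (L j) q (ρ j)).card : ℝ) / p))
        ((S.card : ℝ) * ∏ j, (((AP (M j) (L j) q (ρ j)).card : ℝ) / p) - A / q ^ r)
    rw [sub_add_sub_cancel] at c6
    have c7 : 2 ^ r * (Q / B) * A ≤ γ / 2 * A := mul_le_mul_of_nonneg_right h2 hA0.le
    linarith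
  have k1 := key 1 le_rfl (by simpa using hQ1) (fun _ => 0)
  have e3 : (fam S R M L).filter (fun z => ∀ j, ((1 : ℕ) : ℤ) ∣ z.2 j - (fun _ => (0 : ℤ)) j) =
      fam S R M L := by
    rw [filter_true_of_mem]
    intro z _ j
    simp
  rw [e3] at k1
  simp only [Nat.cast_one, one_pow, div_one] at k1
  set T : ℝ := ((fam S R M L).card : ℝ) with hT
  have k2 : A / 2 ≤ T := by
    have := (abs_le.mp k1).1
    nlinarith
  refine ⟨k2, ?_⟩
  · intro q hq hqQ ρ
    have k3 := key q hq hqQ ρ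
    have hqR : (1 : ℝ) ≤ q := by exact_mod_cast hq
    have k4 : |A / (q : ℝ) ^ r - T / (q : ℝ) ^ r| ≤ γ * A := by
      rw [← sub_div, abs_div, abs_sub_comm, abs_of_pos (show (0 : ℝ) < (q : ℝ) ^ r by positivity)]
      exact (div_le_self (abs_nonneg _) (one_le_pow₀ hqR)).trans k1
    have k5 := abs_add_le ((((fam S R M L).filter (fun z => ∀ j, (q : ℤ) ∣ z.2 j - ρ j)).card : ℝ) -
        A / (q : ℝ) ^ r) (A / (q : ℝ) ^ r - T / (q : ℝ) ^ r)
    rw [sub_add_sub_cancel] at k5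
    have hγ : 0 ≤ γ := by
      have := (abs_nonneg _).trans k1
      by_contra h
      push Not at h
      nlinarith
    nlinarith

end

/-- the integers at distance at most `B` of `v` all have a prime factor at most `y` -/
def Far (v : ℤ) (B y : ℝ) : Prop :=
  ∀ m : ℤ, |(m : ℝ) - v| ≤ B → ∃ l : ℕ, l.Prime ∧ (l : ℝ) ≤ y ∧ (l : ℤ) ∣ m


end Pool.Agent.N39.RG
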