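import Pool.Agent.N39.RG.Fam
import Pool.Agent.N725.JC.Main

set_option autoImplicit false
set_option linter.unusedSectionVars false
set_option linter.unusedVariables false

/-! # Families of vectors modulo `p` with small exponential sums: record gaps at all monomials -/

namespace Pool.Agent.N39.RG

open Finset Filter
open Pool.Agent.W147.PS (ff ff_compare)
open Pool.Agent.N725.JC (Exps fmono fam_count Fam)

lemma ff_same (x : ℝ) : Pool.Agent.H256R2.SC.ff x = ff x := rfl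

open scoped Classical in
/-- record gaps at all monomials with coprime exponents of the members of a family of vectors modulo `p`
with small exponential sums -/
theorem mainE (r E : ℕ) (δ : ℝ) (hδ : 0 < δ) (hδ1 : δ ≤ 1) :
    ∃ κ : ℝ, 0 < κ ∧ ∃ p₀ : ℕ, ∀ (p : ℕ) [Fact p.Prime], p₀ ≤ p →
    ∀ (ε : ℝ) (ι : Type) (S : Finset ι) (R : ι → Fin r → ZMod p), S.Nonempty →
    (∀ α : Fin r → ZMod p, α ≠ 0 →
      ‖∑ i ∈ S, (ZMod.stdAddChar (∑ j, α j * R i j) : ℂ)‖ ≤ S.card * (p : ℝ) ^ (-ε)) →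
    ∀ (M : Fin r → ℤ) (L : Fin r → ℕ), (∀ j, L j ≤ p) → (∀ j, (p : ℝ) ^ δ ≤ L j) →
      (p : ℝ) ^ ((r : ℝ) - ε + δ) ≤ ∏ j, (L j : ℝ) →
    (p : ℝ) ^ (-δ) * (S.card * ∏ j, ((L j : ℝ) / p)) ≤
      (((fam S R M L).filter (fun z => ∀ e : Fin r → ℕ, (∀ i, e i ≤ E) → Finset.univ.gcd e = 1 →
        Far (∏ i, z.2 i ^ e i) (κ * ff p) ((p : ℝ) ^ δ))).card : ℝ) := by
  obtain ⟨c, hc, Z₀, hmono⟩ := fmono (ι := Exps r E) r (fun e i => (e.1 i : ℕ)) (by
    intro e e' h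
    apply Subtype.ext
    funext i
    exact Fin.ext (congrFun h i)) (fun e => e.2)
  obtain ⟨η, hη⟩ : ∃ η : ℝ, η = δ / (8 * (r + 3)) := ⟨_, rfl⟩
  have hr0 : (0 : ℝ) ≤ r := Nat.cast_nonneg r
  have hk2 : (0 : ℝ) < 8 * (r + 3) := by positivity
  have hη0 : 0 < η := by rw [hη]; positivity
  have hηr : η * (r + 3) = δ / 8 := by rw [hη]; field_simp
  have hηδ : η ≤ δ / 24 := by nlinarith
  have hηr2 : η * (r + 2) ≤ δ / 8 := by nlinarith
  refine ⟨c * (η / 2 / 32), by positivity, ?_⟩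
  have e1 : ∀ᶠ x : ℝ in atTop, (Real.log x + 3) ^ r ≤ x ^ (δ / 4) := by
    have h1 : (fun x : ℝ => (Real.log x + 3) ^ r) =o[atTop] fun x : ℝ => x ^ (δ / 4) := by
      have h2 : (fun x : ℝ => (Real.log x + 3)) =O[atTop] Real.log :=
        (Asymptotics.isBigO_refl _ _).add (Real.isLittleO_const_log_atTop (c := 3)).isBigO
      have h4 : (fun x : ℝ => Real.log x ^ r) =o[atTop] fun x : ℝ => x ^ (δ / 4) := by
        have h5 := isLittleO_log_rpow_rpow_atTop (s := δ / 4) (r : ℝ) (by positivity)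
        refine h5.congr' ?_ (Filter.EventuallyEq.refl _ _)
        filter_upwards with x
        rw [Real.rpow_natCast]
      exact (h2.pow r).trans_isLittleO h4
    have h6 := h1.def (show (0 : ℝ) < 1 by norm_num)
    filter_upwards [h6, eventually_ge_atTop (1 : ℝ)] with x hx hx1
    have hl := Real.log_nonneg hx1
    rw [Real.norm_of_nonneg (by positivity), Real.norm_of_nonneg (by positivity), one_mul] at hx
    exact hx
  have e2 : ∀ᶠ x : ℝ in atTop, 16 * 2 ^ r ≤ x ^ (δ / 4) :=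
    (tendsto_rpow_atTop (by positivity)).eventually_ge_atTop _
  have e3 : ∀ᶠ x : ℝ in atTop, max (max Z₀ 7) 2 + 1 ≤ x ^ (η / 2) :=
    (tendsto_rpow_atTop (by positivity)).eventually_ge_atTop _
  obtain ⟨x₀, hx₀⟩ := eventually_atTop.mp (((e1.and e2).and e3).and
    ((ff_compare (η / 2) (by positivity) (by linarith)).and (eventually_gt_atTop (1 : ℝ))))
  obtain ⟨p₀, hp₀⟩ := exists_nat_ge x₀
  refine ⟨p₀, ?_⟩
  intro p hpF hpp ε ι S R hS hE M L hL hLB hvol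
  obtain ⟨⟨⟨g1, g2⟩, g3⟩, g4, g5⟩ := hx₀ p (hp₀.trans (by exact_mod_cast hpp))
  have hp0 : (0 : ℝ) < p := by linarith
  have hmo : ∀ x y : ℝ, x ≤ y → (p : ℝ) ^ x ≤ (p : ℝ) ^ y := fun x y h =>
    Real.rpow_le_rpow_of_exponent_le g5.le h
  have hpow1 : ∀ x : ℝ, 0 ≤ x → 1 ≤ (p : ℝ) ^ x := fun x h => Real.one_le_rpow g5.le h
  -- the modulus scale
  obtain ⟨Z, hZ⟩ : ∃ Z : ℕ, Z = ⌊(p : ℝ) ^ η⌋₊ := ⟨_, rfl⟩
  have hpη : 0 < (p : ℝ) ^ η := Real.rpow_pos_of_pos hp0 _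
  have hZle : (Z : ℝ) ≤ (p : ℝ) ^ η := by rw [hZ]; exact Nat.floor_le hpη.le
  have hhalf : (p : ℝ) ^ (η / 2) * (p : ℝ) ^ (η / 2) = (p : ℝ) ^ η := by
    rw [← Real.rpow_add hp0]; congr 1; ring
  obtain ⟨y, hy⟩ : ∃ y : ℝ, y = (p : ℝ) ^ (η / 2) := ⟨_, rfl⟩
  rw [← hy] at g3 hhalf
  have hm1 : max Z₀ 7 ≤ max (max Z₀ 7) 2 := le_max_left _ _
  have hm2 : (2 : ℝ) ≤ max (max Z₀ 7) 2 := le_max_right _ _
  have hm3 : Z₀ ≤ max Z₀ 7 := le_max_left _ _
  have hm4 : (7 : ℝ) ≤ max Z₀ 7 := le_max_right _ _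
  have hyZ : y ≤ Z := by
    have h1 : (p : ℝ) ^ η < Z + 1 := by rw [hZ]; exact Nat.lt_floor_add_one _
    rw [← hhalf] at h1
    nlinarith
  have hZ7 : (7 : ℝ) ≤ Z := by linarith
  have hZZ₀ : Z₀ ≤ (Z : ℝ) := by linarith
  have hZ6 : 6 ≤ Z := by
    have : (6 : ℝ) ≤ Z := by linarith
    exact_mod_cast this
  have hZpos : (0 : ℝ) < (Z : ℝ) ^ (r + 2) := by positivity
  -- powers of `Z`
  obtain ⟨g, hg⟩ : ∃ g : ℝ, g = (p : ℝ) ^ (η * (r + 2)) := ⟨_, rfl⟩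
  have hg0 : 0 < g := by rw [hg]; exact Real.rpow_pos_of_pos hp0 _
  have hg1 : 1 ≤ g := by rw [hg]; exact hpow1 _ (by positivity)
  have hZg : (Z : ℝ) ^ (r + 2) ≤ g := by
    calc (Z : ℝ) ^ (r + 2) ≤ ((p : ℝ) ^ η) ^ (r + 2) := pow_le_pow_left₀ (Nat.cast_nonneg _) hZle _
      _ = g := by
          rw [hg, ← Real.rpow_natCast, ← Real.rpow_mul hp0.le]
          congr 1
          push_cast
          ring
  have hgδ : g ≤ (p : ℝ) ^ (δ / 8) := by rw [hg]; exact hmo _ _ hηr2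
  -- `D ^ 4 = p ^ (δ/2)` and so on
  have hprod : ∏ j, ((L j : ℝ) / p) = (∏ j, (L j : ℝ)) / (p : ℝ) ^ (r : ℝ) := by
    rw [prod_div_distrib, prod_const, card_univ, Fintype.card_fin, Real.rpow_natCast]
  have hScard : (0 : ℝ) < S.card := by exact_mod_cast hS.card_pos
  obtain ⟨A, hA⟩ : ∃ A : ℝ, A = S.card * ∏ j, ((L j : ℝ) / p) := ⟨_, rfl⟩
  have hAlow : S.card * (p : ℝ) ^ (δ - ε) ≤ A := by
    rw [hA, hprod]
    apply mul_le_mul_of_nonneg_left _ hScard.le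
    rw [le_div_iff₀ (Real.rpow_pos_of_pos hp0 _), ← Real.rpow_add hp0]
    refine le_trans (le_of_eq ?_) hvol
    congr 1
    ring
  have hA0 : 0 < A := lt_of_lt_of_le (by positivity) hAlow
  obtain ⟨γ, hγ⟩ : ∃ γ : ℝ, γ = 1 / (8 * g) := ⟨_, rfl⟩
  have hγ0 : 0 < γ := by rw [hγ]; positivity
  have h34 : (p : ℝ) ^ (δ / 4) * (p : ℝ) ^ (δ / 4) = (p : ℝ) ^ (δ / 2) := by
    rw [← Real.rpow_add hp0]; congr 1; ring
  have h16 : (1 : ℝ) ≤ 2 ^ r := one_le_pow₀ (by norm_num)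
  have hp4 : 16 ≤ (p : ℝ) ^ (δ / 4) := by nlinarith
  obtain ⟨hcard, heq⟩ := fam_equi S hS R (S.card * (p : ℝ) ^ (-ε)) (by positivity) hE M L
    ((p : ℝ) ^ δ) γ ((p : ℝ) ^ η) (hpow1 _ hδ.le) hLB hL (hpow1 _ hη0.le)
    (by
      calc (p : ℝ) ^ η < (p : ℝ) ^ (1 : ℝ) := Real.rpow_lt_rpow_of_exponent_lt g5 (by linarith)
        _ = p := Real.rpow_one _)
    (hmo _ _ (by linarith))
    (by
      rw [← hA]
      have h1 : 16 * g * (Real.log p + 3) ^ r ≤ (p : ℝ) ^ δ := by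
        calc 16 * g * (Real.log p + 3) ^ r
            ≤ (p : ℝ) ^ (δ / 4) * (p : ℝ) ^ (δ / 8) * (p : ℝ) ^ (δ / 4) := by
              have h2 : (0 : ℝ) ≤ (Real.log p + 3) ^ r := by
                have := Real.log_nonneg g5.le
                positivity
              have h3 : 16 * g ≤ (p : ℝ) ^ (δ / 4) * (p : ℝ) ^ (δ / 8) :=
                mul_le_mul hp4 hgδ hg0.le (by positivity)
              exact mul_le_mul h3 g1 h2 (by positivity)
          _ = (p : ℝ) ^ (δ * 5 / 8) := by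
              rw [← Real.rpow_add hp0, ← Real.rpow_add hp0]; congr 1; ring
          _ ≤ _ := hmo _ _ (by linarith)
      calc S.card * (p : ℝ) ^ (-ε) * (Real.log p + 3) ^ r
          = γ / 2 * (S.card * ((16 * g * (Real.log p + 3) ^ r) * (p : ℝ) ^ (-ε))) := by
            rw [hγ]; field_simp; norm_num
        _ ≤ γ / 2 * (S.card * ((p : ℝ) ^ δ * (p : ℝ) ^ (-ε))) := by gcongr
        _ = γ / 2 * (S.card * (p : ℝ) ^ (δ - ε)) := by
            rw [← Real.rpow_add hp0]; rfl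
        _ ≤ γ / 2 * A := by gcongr)
    (by
      have h1 : 16 * 2 ^ r * g * (p : ℝ) ^ η ≤ (p : ℝ) ^ δ := by
        calc 16 * 2 ^ r * g * (p : ℝ) ^ η
            ≤ (p : ℝ) ^ (δ / 4) * (p : ℝ) ^ (δ / 8) * (p : ℝ) ^ (δ / 8) := by
              have h3 : 16 * 2 ^ r * g ≤ (p : ℝ) ^ (δ / 4) * (p : ℝ) ^ (δ / 8) :=
                mul_le_mul g2 hgδ hg0.le (by positivity)
              exact mul_le_mul h3 (hmo _ _ (by linarith)) hpη.le (by positivity)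
          _ = (p : ℝ) ^ (δ / 2) := by
              rw [← Real.rpow_add hp0, ← Real.rpow_add hp0]; congr 1; ring
          _ ≤ _ := hmo _ _ (by linarith)
      have hpδ : 0 < (p : ℝ) ^ δ := Real.rpow_pos_of_pos hp0 _
      rw [hγ, div_div, ← mul_div_assoc, div_le_div_iff₀ hpδ (by positivity)]
      linarith)
    (by
      rw [hγ, div_le_div_iff₀ (by positivity) (by norm_num)]
      linarith)
  rw [← hA] at hcard ⊢
  obtain ⟨s, hs⟩ : ∃ s : Finset (Σ _ : ι, (Fin r → ℤ)), s = fam S R M L := ⟨_, rfl⟩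
  rw [← hs] at hcard heq ⊢
  have hscard : (0 : ℝ) < s.card := by linarith
  obtain ⟨good, hgood⟩ : ∃ good : (Σ _ : ι, (Fin r → ℤ)) → Prop, good = fun z => ∀ e : Exps r E, ∀ h : ℤ,
      |(h : ℝ)| ≤ c * ff Z → ∃ l : ℕ, l.Prime ∧ (l : ℝ) ≤ (Z : ℝ) ^ (1 / 10 : ℝ) ∧
        (l : ℤ) ∣ (∏ i, z.2 i ^ (e.1 i : ℕ)) + h := ⟨_, rfl⟩
  have hmain := fam_count (d := r) (Z := Z) s (fun z => z.2) hZ6 (by
      rw [← Finset.card_pos]
      exact_mod_cast hscard)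
    (by
      intro q hq hqZ ρ
      have h1 := heq q hq ((show (q : ℝ) ≤ Z by exact_mod_cast hqZ).trans hZle) ρ
      have h2 : (s.card : ℝ) * (4 * γ) ≤ s.card / (Z : ℝ) ^ (r + 2) := by
        rw [le_div_iff₀ hZpos]
        have h3 : 4 * γ * (Z : ℝ) ^ (r + 2) ≤ 1 := by
          calc 4 * γ * (Z : ℝ) ^ (r + 2) ≤ 4 * γ * g := by gcongr
            _ = 1 / 2 := by rw [hγ]; field_simp; norm_num
            _ ≤ 1 := by norm_num
        calc (s.card : ℝ) * (4 * γ) * (Z : ℝ) ^ (r + 2)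
            = s.card * (4 * γ * (Z : ℝ) ^ (r + 2)) := by ring
          _ ≤ s.card * 1 := by gcongr
          _ = _ := mul_one _
      refine le_trans ?_ h2
      convert h1 using 4)
    good (by
      intro t ht
      obtain ⟨a, ha, h⟩ := hmono Z hZZ₀ _ t (fun z => z.2) ht
      refine ⟨a, ha, ?_⟩
      rw [hgood]
      intro e h' hh
      refine h e h' ?_
      rw [ff_same]
      exact hh)
  have hfinal : (p : ℝ) ^ (-δ) * A ≤ (s.card : ℝ) / (Z : ℝ) ^ (r + 2) := by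
    rw [le_div_iff₀ hZpos]
    have h1 : 2 * g ≤ (p : ℝ) ^ δ := by
      calc 2 * g ≤ (p : ℝ) ^ (δ / 4) * (p : ℝ) ^ (δ / 8) :=
            mul_le_mul (by linarith) hgδ hg0.le (by positivity)
        _ = (p : ℝ) ^ (δ * 3 / 8) := by rw [← Real.rpow_add hp0]; congr 1; ring
        _ ≤ _ := hmo _ _ (by linarith)
    have h2 : (p : ℝ) ^ (-δ) * (2 * g) ≤ 1 := by
      calc (p : ℝ) ^ (-δ) * (2 * g) ≤ (p : ℝ) ^ (-δ) * (p : ℝ) ^ δ := by gcongr
        _ = 1 := by rw [← Real.rpow_add hp0]; simp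
    calc (p : ℝ) ^ (-δ) * A * (Z : ℝ) ^ (r + 2) ≤ (p : ℝ) ^ (-δ) * A * g := by gcongr
      _ = ((p : ℝ) ^ (-δ) * (2 * g)) * (A / 2) := by ring
      _ ≤ 1 * (A / 2) := by gcongr
      _ ≤ s.card := by linarith
  refine (hfinal.trans hmain).trans ?_
  rw [Nat.cast_le]
  apply Finset.card_le_card
  intro z hz
  rw [mem_filter] at hz ⊢
  obtain ⟨hz1, hz2⟩ := hz
  refine ⟨hz1, fun e he hgcd m hm => ?_⟩
  rw [hgood] at hz2
  have hff : c * (η / 2 / 32) * ff p ≤ c * ff Z := by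
    have h1 := (g4.2 Z (by rw [← hy]; exact hyZ) (by
      have h2 : (Z : ℝ) ≤ (p : ℝ) ^ (1 : ℝ) := hZle.trans (hmo _ _ (by linarith))
      rw [Real.rpow_one] at h2
      nlinarith)).1
    calc c * (η / 2 / 32) * ff p = c * (η / 2 / 32 * ff p) := by ring
      _ ≤ c * ff Z := mul_le_mul_of_nonneg_left h1 hc.le
  obtain ⟨l, hl1, hl2, hl3⟩ := hz2 ⟨fun i => ⟨e i, Nat.lt_succ_of_le (he i)⟩, hgcd⟩
    (m - ∏ i, z.2 i ^ e i) (by
      have h1 := hm.trans hff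
      push_cast at h1 ⊢
      exact h1)
  refine ⟨l, hl1, hl2.trans ?_, ?_⟩
  · calc (Z : ℝ) ^ (1 / 10 : ℝ) ≤ ((p : ℝ) ^ η) ^ (1 / 10 : ℝ) :=
          Real.rpow_le_rpow (Nat.cast_nonneg _) hZle (by norm_num)
      _ = (p : ℝ) ^ (η * (1 / 10)) := by rw [← Real.rpow_mul hp0.le]
      _ ≤ (p : ℝ) ^ δ := hmo _ _ (by linarith)
  · simp only at hl3
    have e : (∏ i, z.2 i ^ e i) + (m - ∏ i, z.2 i ^ e i) = m := by ring
    rwa [e] at hl3

end Pool.Agent.N39.RG
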