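import Pool.Agent.N39.RG.MainE
import Pool.Agent.N39.RG.Bias

set_option autoImplicit false

/-! # From families of vectors to their indices -/

namespace Pool.Agent.N39.RG

open Finset Filter

open scoped Classical in
/-- the members of a family with a good representative in the box -/
lemma fam_to_index {p : ℕ} [Fact p.Prime] {ι : Type} (S : Finset ι) {r : ℕ} (R : ι → Fin r → ZMod p)
    (M : Fin r → ℤ) (L : Fin r → ℕ) (hL : ∀ j, L j ≤ p) (P : (Fin r → ℤ) → Prop) :
    ((fam S R M L).filter (fun z => P z.2)).card ≤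
      (S.filter (fun i => ∃ z : Fin r → ℤ,
        (∀ j, M j < z j ∧ z j ≤ M j + L j ∧ ((z j : ℤ) : ZMod p) = R i j) ∧ P z)).card := by
  apply Finset.card_le_card_of_injOn (fun z => z.1)
  · intro z hz
    rw [mem_coe, mem_filter, fam, mem_sigma, Fintype.mem_piFinset] at hz
    obtain ⟨⟨h1, h2⟩, h3⟩ := hz
    rw [mem_coe, mem_filter]
    refine ⟨h1, z.2, fun j => ?_, h3⟩
    have h4 := h2 j
    rw [mem_filter, mem_Ioc] at h4
    exact ⟨h4.1.1, h4.1.2, h4.2⟩
  · rintro ⟨i, x⟩ hz ⟨i', y⟩ hw h
    rw [mem_coe, mem_filter, fam, mem_sigma, Fintype.mem_piFinset] at hz hw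
    simp only at h
    subst h
    have h5 : x = y := by
      funext j
      have h1 := hz.1.2 j
      have h2 := hw.1.2 j
      rw [mem_filter, mem_Ioc] at h1 h2
      exact Pool.Agent.N725.JC.eq_of_win (hL j) h1.1.1 h1.1.2 h2.1.1 h2.1.2 (h1.2.trans h2.2.symm)
    rw [h5]

/-- the record scale, written out -/
lemma ff_eq (x : ℝ) : Pool.Agent.W147.PS.ff x =
    Real.log x * (Real.log (Real.log x)) ^ 2 * Real.log (Real.log (Real.log (Real.log x))) /
    (Real.log (Real.log (Real.log x))) ^ 2 := rfl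

end Pool.Agent.N39.RG
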